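import Pool.Agent.Helper67.BK.Growth

/-!
# Exponential growth of the quotient group, for every generating set
-/

set_option autoImplicit false

open Filter Topology

namespace Pool.Agent.Helper67.BK

open Pool.Agent.Helper67.SG (Gp ga)

/-- Products of lists of length at most `n`. -/
def LB {G : Type} [Monoid G] (Q : G → Prop) (n : ℕ) : Set G :=
  {g | ∃ l : List G, (∀ x ∈ l, Q x) ∧ l.length ≤ n ∧ l.prod = g}

theorem LB_finite {G : Type} [Monoid G] {Q : G → Prop} (hQ : {x | Q x}.Finite) (n : ℕ) :
    (LB Q n).Finite := by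
  induction n with
  | zero =>
    refine (Set.finite_singleton (1 : G)).subset ?_
    rintro g ⟨l, _, hl2, rfl⟩
    have : l = [] := List.length_eq_zero_iff.1 (by omega)
    subst this
    simp
  | succ n ih =>
    refine ((Set.finite_singleton (1 : G)).union (hQ.image2 (· * ·) ih)).subset ?_
    rintro g ⟨l, hl1, hl2, rfl⟩
    cases l with
    | nil => left; simp
    | cons x l =>
      right
      refine ⟨x, hl1 x (by simp), l.prod,
        ⟨l, fun y hy => hl1 y (List.mem_cons_of_mem _ hy), by simp at hl2; omega, rfl⟩, ?_⟩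
      simp

theorem LB_mul {G : Type} [Monoid G] {Q : G → Prop} (hQ : {x | Q x}.Finite) (m n : ℕ) :
    (LB Q (m + n)).ncard ≤ (LB Q m).ncard * (LB Q n).ncard := by
  have h1 : LB Q (m + n) ⊆ (fun p : G × G => p.1 * p.2) '' (LB Q m ×ˢ LB Q n) := by
    rintro g ⟨l, hl, hn, rfl⟩
    refine ⟨((l.take m).prod, (l.drop m).prod), ⟨⟨l.take m, fun x hx => hl x (List.mem_of_mem_take hx),
      ?_, rfl⟩, ⟨l.drop m, fun x hx => hl x (List.mem_of_mem_drop hx), ?_, rfl⟩⟩, ?_⟩
    · simp
    · simp only [List.length_drop]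
      omega
    · simp only
      rw [← List.prod_append, List.take_append_drop]
  have hfin : (LB Q m ×ˢ LB Q n).Finite := (LB_finite hQ m).prod (LB_finite hQ n)
  calc (LB Q (m + n)).ncard ≤ ((fun p : G × G => p.1 * p.2) '' (LB Q m ×ˢ LB Q n)).ncard :=
        Set.ncard_le_ncard h1 (hfin.image _)
    _ ≤ (LB Q m ×ˢ LB Q n).ncard := Set.ncard_image_le hfin
    _ = _ := Set.ncard_prod

theorem LB_pos {G : Type} [Monoid G] {Q : G → Prop} (hQ : {x | Q x}.Finite) (n : ℕ) :
    0 < (LB Q n).ncard := by
  rw [Set.ncard_pos (LB_finite hQ n)]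
  exact ⟨1, [], by simp, by simp, rfl⟩

/-- In a group with a nonempty symmetric set of letters the two kinds of balls agree from `n = 2`. -/
theorem Ball_eq {G : Type} [Group G] (B : Set G) (hB : B.Nonempty) (n : ℕ) (hn : 2 ≤ n) :
    Ball {x | x ∈ B ∨ x⁻¹ ∈ B} n = LB (fun x => x ∈ B ∨ x⁻¹ ∈ B) n := by
  ext g
  constructor
  · rintro ⟨x, hx, l, hl, hn, rfl⟩
    refine ⟨x :: l, ?_, by simpa using hn, ?_⟩
    · intro y hy
      rcases List.mem_cons.1 hy with rfl | hy
      · exact hx
      · exact hl y hy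
    · rw [foldl_eq, List.prod_cons]
  · rintro ⟨l, hl, hln, rfl⟩
    cases l with
    | nil =>
      obtain ⟨b, hb⟩ := hB
      refine ⟨b, Or.inl hb, [b⁻¹], ?_, by simpa using hn, by simp⟩
      intro y hy
      rw [List.mem_singleton] at hy
      subst hy
      exact Or.inr (by simpa using hb)
    | cons x l =>
      refine ⟨x, hl x (by simp), l, fun y hy => hl y (by simp [hy]), by simpa using hln, ?_⟩
      rw [foldl_eq, List.prod_cons]

theorem Gp_exp : GroupOfExponentialGrowth Gp := by
  classical
  constructor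
  · refine ⟨(SG.A : Set Gp), SG.A.finite_toSet, ?_⟩
    rw [eq_top_iff]
    intro g _
    obtain ⟨s, hs, t, ht, rfl⟩ := SG.quot g
    have h1 : ∀ s, s ∈ SG.S → s ∈ Subgroup.closure (SG.A : Set Gp) := by
      intro s hs
      obtain ⟨l, hl, rfl⟩ := SG.mem_S_list hs
      exact Subgroup.list_prod_mem _ fun x hx => Subgroup.subset_closure (hl x hx)
    exact Subgroup.mul_mem _ (Subgroup.inv_mem _ (h1 s hs)) (h1 t ht)
  · intro B hB hcl
    have hB' : {x : Gp | x ∈ B ∨ x⁻¹ ∈ B}.Finite :=
      hB.union (hB.preimage (inv_injective.injOn) : {x : Gp | x⁻¹ ∈ B}.Finite)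
    refine ⟨ball_finite hB', ?_⟩
    obtain ⟨c, hc, hball⟩ := SG.ball_growth
    -- `B` is not empty
    have hne : B.Nonempty := by
      by_contra hcon
      rw [Set.not_nonempty_iff_eq_empty] at hcon
      subst hcon
      rw [Subgroup.closure_empty] at hcl
      have h1 : (SG.ball 1).ncard ≤ 1 := by
        rw [Set.ncard_le_one (SG.ball_finite 1)]
        intro a _ b _
        have ha : a ∈ (⊥ : Subgroup Gp) := by rw [hcl]; trivial
        have hb : b ∈ (⊥ : Subgroup Gp) := by rw [hcl]; trivial
        rw [Subgroup.mem_bot] at ha hb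
        rw [ha, hb]
      have h2 := hball 1
      have h3 : ((SG.ball 1).ncard : ℝ) ≤ 1 := by exact_mod_cast h1
      have h4 : c ^ 1 ≤ (1 : ℝ) := h2.trans h3
      linarith
    set Q : Gp → Prop := fun x => x ∈ B ∨ x⁻¹ ∈ B with hQ
    have hQf : {x | Q x}.Finite := hB'
    -- comparison with the four generators
    obtain ⟨k, hk, hkA⟩ := bound Q {x : Gp | x ∈ SG.A ∨ x⁻¹ ∈ SG.A}
      (SG.A.finite_toSet.union (SG.A.finite_toSet.preimage (inv_injective.injOn))) (by
        intro x _
        have hx : x ∈ Subgroup.closure B := by rw [hcl]; trivial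
        rw [← Subgroup.mem_toSubmonoid, Subgroup.closure_toSubmonoid] at hx
        obtain ⟨l, h1, h2⟩ := Submonoid.exists_list_of_mem_closure hx
        refine ⟨l, fun y hy => ?_, h2⟩
        rcases h1 y hy with h | h
        · exact Or.inl h
        · exact Or.inr (Set.mem_inv.1 h))
    have hcmp : ∀ n, c ^ n ≤ ((LB Q (k * n)).ncard : ℝ) := by
      intro n
      refine (hball n).trans ?_
      have : SG.ball n ⊆ LB Q (k * n) := by
        rintro g ⟨l, hl, hn, rfl⟩
        obtain ⟨l', h1, h2, h3⟩ := lift (fun x : Gp => x ∈ SG.A ∨ x⁻¹ ∈ SG.A) Q k hkA l hl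
        exact ⟨l', h1, h2.trans (Nat.mul_le_mul_left k hn), h3⟩
      exact_mod_cast Set.ncard_le_ncard this (LB_finite hQf _)
    -- Fekete
    set u : ℕ → ℝ := fun n => Real.log ((LB Q n).ncard : ℝ) with hu
    have hpos : ∀ n, (1 : ℝ) ≤ ((LB Q n).ncard : ℝ) := fun n => by exact_mod_cast LB_pos hQf n
    have hsub : Subadditive u := by
      intro m n
      rw [hu]
      simp only
      rw [← Real.log_mul (by have := hpos m; positivity) (by have := hpos n; positivity)]
      refine Real.log_le_log (by have := hpos (m + n); linarith) ?_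
      exact_mod_cast LB_mul hQf m n
    have hbdd : BddBelow (Set.range fun n => u n / n) := by
      refine ⟨0, ?_⟩
      rintro _ ⟨n, rfl⟩
      exact div_nonneg (Real.log_nonneg (hpos n)) (by positivity)
    have hlim := hsub.tendsto_lim hbdd
    have hlow : Real.log c / k ≤ hsub.lim := by
      have hk0 : (0 : ℝ) < k := by exact_mod_cast hk
      have ht : Tendsto (fun n : ℕ => k * n) atTop atTop :=
        tendsto_id.const_mul_atTop' hk
      refine ge_of_tendsto (hlim.comp ht) ?_
      filter_upwards [eventually_ge_atTop 1] with n hn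
      have hn0 : (0 : ℝ) < n := by exact_mod_cast (by omega : 0 < n)
      simp only [Function.comp]
      push_cast
      rw [div_le_div_iff₀ hk0 (by positivity)]
      have h1 : (n : ℝ) * Real.log c ≤ u (k * n) := by
        rw [hu, ← Real.log_pow]
        exact Real.log_le_log (by positivity) (hcmp n)
      nlinarith
    have hc0 : 0 < Real.log c := Real.log_pos hc
    refine ⟨Real.exp hsub.lim, ?_, ?_⟩
    · rw [Real.one_lt_exp_iff]
      refine lt_of_lt_of_le ?_ hlow
      positivity
    · rw [HasRate]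
      refine Tendsto.congr' ?_ ((Real.continuous_exp.tendsto _).comp hlim)
      filter_upwards [eventually_ge_atTop 2] with n hn
      have hn0 : (0 : ℝ) < n := by exact_mod_cast (by omega : 0 < n)
      simp only [Function.comp]
      rw [gamma, Ball_eq B hne n hn, Real.rpow_def_of_pos (by have := hpos n; linarith)]
      congr 1
      rw [hu]
      simp only
      ring

theorem main :
    ∃ (S : Type) (_ : Semigroup S) (G : Type) (_ : Group G) (i : S →ₙ* G),
      (∀ s x y : S, s * x = s * y → x = y) ∧ (∀ s x y : S, x * s = y * s → x = y) ∧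
      NonExponentialGrowth S ∧
      Function.Injective i ∧ (∀ g : G, ∃ s t : S, g = (i s)⁻¹ * i t) ∧
      GroupOfExponentialGrowth G := by
  refine ⟨S0, inferInstance, Gp, inferInstance, MulMemClass.subtype SG.S, ?_, ?_, S0_nonexp,
    Subtype.val_injective, ?_, Gp_exp⟩
  · intro s x y h
    exact Subtype.ext (mul_left_cancel (congrArg Subtype.val h : (s : Gp) * x = s * y))
  · intro s x y h
    exact Subtype.ext (mul_right_cancel (congrArg Subtype.val h : (x : Gp) * s = y * s))
  · intro g
    obtain ⟨s, hs, t, ht, hg⟩ := SG.quot g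
    exact ⟨⟨s, hs⟩, ⟨t, ht⟩, hg⟩

end Pool.Agent.Helper67.BK
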