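import Pool.Agent.Helper67.SemiGrowth.Grp

/-!
# Growth of semigroups and groups: definitions and comparison of generating sets
-/

set_option autoImplicit false

open Filter Topology

namespace Pool.Agent.Helper67.BK

/-- The set of the elements of the semigroup `S` which can be written as a product
`x * y₁ * y₂ * ⋯` of at most `n` elements of `A` (and of at least one). -/
def Ball {S : Type} [Semigroup S] (A : Set S) (n : ℕ) : Set S :=
  {s | ∃ x ∈ A, ∃ l : List S, (∀ y ∈ l, y ∈ A) ∧ l.length + 1 ≤ n ∧ s = l.foldl (· * ·) x}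

/-- The growth function `γ(n)`: the number of distinct elements of `S` which are products of at
most `n` elements of `A`. -/
noncomputable def gamma {S : Type} [Semigroup S] (A : Set S) (n : ℕ) : ℕ := (Ball A n).ncard

/-- `lim γ(n) ^ (1/n) = L`, for the generating set `A`. -/
def HasRate {S : Type} [Semigroup S] (A : Set S) (L : ℝ) : Prop :=
  Tendsto (fun n : ℕ => (gamma A n : ℝ) ^ (1 / (n : ℝ))) atTop (𝓝 L)

/-- The semigroup `S` is finitely generated and of non-exponential growth: for every finite
generating set `A`, all `Ball A n` are finite and `lim γ(n) ^ (1/n)` exists and is at most `1`. -/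
def NonExponentialGrowth (S : Type) [Semigroup S] : Prop :=
  (∃ A : Set S, A.Finite ∧ Subsemigroup.closure A = ⊤) ∧
    ∀ A : Set S, A.Finite → Subsemigroup.closure A = ⊤ →
      (∀ n, (Ball A n).Finite) ∧ ∃ L : ℝ, L ≤ 1 ∧ HasRate A L

/-- The group `G` is finitely generated and of exponential growth: for every finite generating
set `B` of the group, with `A = B ∪ B⁻¹`, all `Ball A n` are finite and `lim γ(n) ^ (1/n)` exists and
is larger than `1`. -/
def GroupOfExponentialGrowth (G : Type) [Group G] : Prop :=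
  (∃ B : Set G, B.Finite ∧ Subgroup.closure B = ⊤) ∧
    ∀ B : Set G, B.Finite → Subgroup.closure B = ⊤ →
      (∀ n, (Ball {x | x ∈ B ∨ x⁻¹ ∈ B} n).Finite) ∧
        ∃ L : ℝ, 1 < L ∧ HasRate {x | x ∈ B ∨ x⁻¹ ∈ B} L

theorem foldl_eq {G : Type} [Monoid G] (l : List G) : ∀ x : G, l.foldl (· * ·) x = x * l.prod := by
  induction l with
  | nil => intro x; simp
  | cons y l ih => intro x; rw [List.foldl_cons, ih, List.prod_cons, mul_assoc]

theorem ball_finite {S : Type} [Semigroup S] {A : Set S} (hA : A.Finite) (n : ℕ) :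
    (Ball A n).Finite := by
  induction n with
  | zero =>
    refine Set.finite_empty.subset ?_
    rintro s ⟨x, _, l, _, h, _⟩
    omega
  | succ n ih =>
    refine (hA.union (ih.image2 (· * ·) hA)).subset ?_
    rintro s ⟨x, hx, l, hl, h, rfl⟩
    rcases List.eq_nil_or_concat l with rfl | ⟨l', y, rfl⟩
    · left
      simpa using hx
    · right
      refine ⟨l'.foldl (· * ·) x, ⟨x, hx, l', fun z hz => hl z (by simp [hz]), ?_, rfl⟩, y,
        hl y (by simp), ?_⟩
      · simp at h
        omega
      · simp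

/-- Replacing letters by words. -/
theorem lift {G : Type} [Monoid G] (P Q : G → Prop) (k : ℕ)
    (h : ∀ x, P x → ∃ l : List G, (∀ y ∈ l, Q y) ∧ l.length ≤ k ∧ l.prod = x) :
    ∀ l : List G, (∀ x ∈ l, P x) →
      ∃ l' : List G, (∀ y ∈ l', Q y) ∧ l'.length ≤ k * l.length ∧ l'.prod = l.prod := by
  intro l
  induction l with
  | nil => intro _; exact ⟨[], by simp, by simp, rfl⟩
  | cons a l ih =>
    intro hl
    obtain ⟨l₁, h1, h2, h3⟩ := h a (hl a (by simp))
    obtain ⟨l₂, h4, h5, h6⟩ := ih (fun x hx => hl x (by simp [hx]))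
    refine ⟨l₁ ++ l₂, ?_, ?_, ?_⟩
    · intro y hy
      rcases List.mem_append.1 hy with hy | hy
      · exact h1 y hy
      · exact h4 y hy
    · rw [List.length_append, List.length_cons]
      nlinarith
    · rw [List.prod_append, h3, h6, List.prod_cons]

/-- A common bound for the lengths of words for finitely many elements. -/
theorem bound {G : Type} [Monoid G] (Q : G → Prop) (F : Set G) (hF : F.Finite)
    (h : ∀ x ∈ F, ∃ l : List G, (∀ y ∈ l, Q y) ∧ l.prod = x) :
    ∃ k : ℕ, 0 < k ∧ ∀ x, x ∈ F → ∃ l : List G, (∀ y ∈ l, Q y) ∧ l.length ≤ k ∧ l.prod = x := by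
  classical
  choose! f hf using h
  obtain ⟨k, hk⟩ := (hF.image (fun x => (f x).length)).bddAbove
  refine ⟨k + 1, by omega, fun x hx => ⟨f x, (hf x hx).1, ?_, (hf x hx).2⟩⟩
  have := hk ⟨x, hx, rfl⟩
  simp only at this
  omega

theorem root_gt_one {c : ℝ} (hc : 1 < c) {k : ℕ} (hk : 0 < k) : ∃ d : ℝ, 1 < d ∧ d ^ k = c := by
  have hk' : (0 : ℝ) < k := by exact_mod_cast hk
  refine ⟨c ^ ((k : ℝ)⁻¹), Real.one_lt_rpow hc (by positivity), ?_⟩
  rw [← Real.rpow_natCast, ← Real.rpow_mul (by linarith), inv_mul_cancel₀ hk'.ne', Real.rpow_one]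

open Pool.Agent.Helper67.SG in
/-- The semigroup generated by the four generators. -/
abbrev S0 : Type := ↥(SG.S)

open Pool.Agent.Helper67.SG in
theorem S0_fg : ∃ A : Set S0, A.Finite ∧ Subsemigroup.closure A = ⊤ := by
  classical
  refine ⟨{x : S0 | (x : Gp) ∈ SG.A}, ?_, ?_⟩
  · exact SG.A.finite_toSet.preimage Subtype.val_injective.injOn
  · rw [eq_top_iff]
    rintro ⟨x, hx⟩ -
    induction hx using Subsemigroup.closure_induction with
    | mem y hy => exact Subsemigroup.subset_closure (by simpa using hy)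
    | mul y z hy hz ihy ihz => exact Subsemigroup.mul_mem _ ihy ihz

open Pool.Agent.Helper67.SG in
theorem S0_nonexp : NonExponentialGrowth S0 := by
  refine ⟨S0_fg, fun A hA hcl => ⟨ball_finite hA, 1, le_refl _, ?_⟩⟩
  -- `A` is not empty
  have hne : A.Nonempty := by
    by_contra hcon
    rw [Set.not_nonempty_iff_eq_empty] at hcon
    subst hcon
    have h1 : (⟨ga, Subsemigroup.subset_closure (by
        rw [Finset.mem_coe, SG.mem_A]; exact Or.inl rfl)⟩ : S0) ∈
        Subsemigroup.closure (∅ : Set S0) := by rw [hcl]; trivial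
    rw [Subsemigroup.closure_empty] at h1
    exact h1
  obtain ⟨k, hk, hkA⟩ := bound (fun y : Gp => y ∈ SG.A) (Subtype.val '' A) (hA.image _) (by
    rintro x ⟨y, _, rfl⟩
    exact mem_S_list y.2)
  have hsub : ∀ n, (Subtype.val '' Ball A n) ⊆ pball (k * n) := by
    rintro n _ ⟨s, ⟨x, hx, l, hl, hn, rfl⟩, rfl⟩
    obtain ⟨l', h1, h2, h3⟩ := lift (fun z : Gp => z ∈ Subtype.val '' A) (fun y => y ∈ SG.A) k hkA
      ((x :: l).map Subtype.val) (by
        intro z hz
        rw [List.mem_map] at hz
        obtain ⟨w, hw, rfl⟩ := hz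
        refine ⟨w, ?_, rfl⟩
        rcases List.mem_cons.1 hw with rfl | hw
        · exact hx
        · exact hl w hw)
    refine ⟨l', h1, ?_, ?_⟩
    · rw [List.length_map, List.length_cons] at h2
      exact h2.trans (Nat.mul_le_mul_left k hn)
    · rw [h3]
      have h4 : ∀ (l : List S0) (x : S0),
          ((l.foldl (· * ·) x : S0) : Gp) = (x : Gp) * (l.map Subtype.val).prod := by
        intro l
        induction l with
        | nil => intro x; simp
        | cons y l ih =>
          intro x
          rw [List.foldl_cons, ih, List.map_cons, List.prod_cons]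
          simp [mul_assoc]
      rw [h4, List.map_cons, List.prod_cons]
  have hle : ∀ n, gamma A n ≤ (pball (k * n)).ncard := by
    intro n
    rw [gamma, ← Set.ncard_image_of_injective (Ball A n) Subtype.val_injective]
    exact Set.ncard_le_ncard (hsub n) (pball_finite _)
  have hge : ∀ n, 1 ≤ n → 1 ≤ gamma A n := by
    intro n hn
    obtain ⟨x, hx⟩ := hne
    rw [gamma, Nat.succ_le_iff, Set.ncard_pos (ball_finite hA n)]
    exact ⟨x, x, hx, [], by simp, by simpa using hn, rfl⟩
  rw [HasRate, tendsto_order]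
  constructor
  · intro a ha
    filter_upwards [eventually_ge_atTop 1] with n hn
    refine lt_of_lt_of_le ha (Real.one_le_rpow ?_ (by positivity))
    exact_mod_cast hge n hn
  · intro b hb
    obtain ⟨d, hd1, hdk⟩ := root_gt_one (c := (1 + b) / 2) (by linarith) hk
    obtain ⟨N, hN⟩ := pball_growth d hd1
    filter_upwards [eventually_ge_atTop (N + 1)] with n hn
    have hn0 : (0 : ℝ) < n := by exact_mod_cast (by omega : 0 < n)
    have h1 : (gamma A n : ℝ) ≤ ((1 + b) / 2) ^ n := by
      calc (gamma A n : ℝ) ≤ ((pball (k * n)).ncard : ℝ) := by exact_mod_cast hle n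
        _ ≤ d ^ (k * n) := hN _ (by nlinarith)
        _ = ((1 + b) / 2) ^ n := by rw [pow_mul, hdk]
    calc (gamma A n : ℝ) ^ (1 / (n : ℝ)) ≤ (((1 + b) / 2) ^ n) ^ (1 / (n : ℝ)) :=
          Real.rpow_le_rpow (by positivity) h1 (by positivity)
      _ = (1 + b) / 2 := by
          rw [← Real.rpow_natCast, ← Real.rpow_mul (by linarith), mul_one_div_cancel hn0.ne',
            Real.rpow_one]
      _ < b := by linarith

end Pool.Agent.Helper67.BK
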